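import Pool.Agent.Helper52.W4.PHI

/-!
# W4, part MIL: the exact sequence of Milnor
-/

set_option autoImplicit false

namespace Pool.Agent.Helper52.W4

open Pool.Agent.Helper40.W4 Polynomial Module

/-! ### Additive maps from the Witt ring -/

section AddLift

lemma exists_addlift {K : Type} [Field K] {M : Type} [AddCommGroup M] (f : Kˣ → M)
    (h1 : ∀ a c : Kˣ, f (a * c ^ 2) = f a) (h2 : ∀ a : Kˣ, f (-a) = - f a)
    (h3 : ∀ a b c : Kˣ, (a : K) + b = c → f a + f b = f c + f (a * b * c)) :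
    ∃ g : W K →+ M, ∀ a, g (br a) = f a := by
  classical
  obtain ⟨F, hF⟩ : ∃ F : MonoidAlgebra ℤ Kˣ →+ M, ∀ a, F (gen a) = f a := by
    refine ⟨(Finsupp.liftAddHom (fun a => (zmultiplesHom M (f a)))).comp
      (MonoidAlgebra.coeffAddEquiv (R := ℤ) (M := Kˣ)).toAddMonoidHom, ?_⟩
    intro a
    simp [gen]
  have key : ∀ x ∈ relIdeal K, ∀ u : Kˣ, F (gen u * x) = 0 := by
    intro x hx
    induction hx using Submodule.span_induction with
    | mem x hx =>
      intro u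
      rcases hx with (⟨a, b, rfl⟩ | ⟨a, rfl⟩) | ⟨a, b, c, h, rfl⟩
      · rw [mul_sub, ← gen_mul, ← gen_mul, map_sub, hF, hF, ← mul_assoc, h1, sub_self]
      · rw [mul_add, ← gen_mul, ← gen_mul, map_add, hF, hF, mul_neg, h2, add_neg_cancel]
      · rw [mul_sub, mul_add, mul_add, ← gen_mul, ← gen_mul, ← gen_mul, ← gen_mul, map_sub, map_add,
          map_add, hF, hF, hF, hF]
        have e := h3 (u * a) (u * b) (u * c) (by push_cast; rw [← mul_add, h])
        have e2 : u * a * (u * b) * (u * c) = (u * (a * b * c)) * u ^ 2 := by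
          rw [pow_two]
          ac_rfl
        rw [e2, h1] at e
        rw [e, sub_self]
    | zero => intro u; rw [mul_zero, map_zero]
    | add x y _ _ hx hy => intro u; rw [mul_add, map_add, hx u, hy u, add_zero]
    | smul r x _ hx =>
      intro u
      rw [smul_eq_mul, ← mul_assoc]
      have : ∀ r : MonoidAlgebra ℤ Kˣ, F (r * x) = 0 := by
        intro r
        induction r using MonoidAlgebra.induction_on with
        | of g => exact hx g
        | add f g hf hg => rw [add_mul, map_add, hf, hg, add_zero]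
        | smul r f hf => rw [smul_mul_assoc, map_zsmul, hf, smul_zero]
      exact this _
  refine ⟨QuotientAddGroup.lift (relIdeal K).toAddSubgroup F ?_, ?_⟩
  · intro x hx
    have := key x hx 1
    rw [gen_one, one_mul] at this
    exact this
  · intro a
    exact hF a

end AddLift

/-! ### The filtration -/

/-- properties of the classes of polynomials -/
structure PolyHyp (F A : Type) [Field F] [CommRing A] (β : F[X] → A) : Prop where
  one : β 1 = 1
  mul : ∀ Y Z : F[X], Y ≠ 0 → Z ≠ 0 → β (Y * Z) = β Y * β Z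
  sq : ∀ Y : F[X], Y ≠ 0 → β Y * β Y = 1
  neg : ∀ Y : F[X], Y ≠ 0 → β (-Y) = - β Y
  add : ∀ Y Z T : F[X], Y ≠ 0 → Z ≠ 0 → T ≠ 0 → Y + Z = T → β Y + β Z = β T + β Y * β Z * β T

/-- products of polynomials of degree at most `n` -/
noncomputable def SS (F : Type) [Field F] (n : ℕ) : Submonoid F[X] :=
  Submonoid.closure {g | g ≠ 0 ∧ g.natDegree ≤ n}

section Filt

variable {F A : Type} [Field F] [CommRing A] (β : F[X] → A)

/-- the filtration -/
def LL (n : ℕ) : AddSubgroup A := AddSubgroup.closure (β '' (SS F n : Set F[X]))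

lemma SS_ne {n : ℕ} {Y : F[X]} (hY : Y ∈ SS F n) : Y ≠ 0 := by
  induction hY using Submonoid.closure_induction with
  | mem x hx => exact hx.1
  | one => exact one_ne_zero
  | mul x y _ _ hx hy => exact mul_ne_zero hx hy

lemma SS_of {n : ℕ} {g : F[X]} (h0 : g ≠ 0) (h : g.natDegree ≤ n) : g ∈ SS F n :=
  Submonoid.subset_closure ⟨h0, h⟩

lemma SS_mono {n m : ℕ} (h : n ≤ m) : SS F n ≤ SS F m :=
  Submonoid.closure_mono fun _ hg => ⟨hg.1, hg.2.trans h⟩

lemma LL_mono {n m : ℕ} (h : n ≤ m) : LL β n ≤ LL β m :=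
  AddSubgroup.closure_mono (Set.image_mono (SS_mono h))

lemma LL_of {n : ℕ} {Y : F[X]} (hY : Y ∈ SS F n) : β Y ∈ LL β n :=
  AddSubgroup.subset_closure ⟨Y, hY, rfl⟩

lemma not_dvd_of_natDegree {n : ℕ} {p : F[X]} (hd : p.natDegree = n + 1) {g : F[X]} (h0 : g ≠ 0)
    (h : g.natDegree ≤ n) : ¬ p ∣ g := by
  intro hdvd
  have := natDegree_le_of_dvd hdvd h0
  omega

lemma SS_not_dvd {n : ℕ} {p : F[X]} (hi : Irreducible p) (hd : p.natDegree = n + 1) {Y : F[X]}
    (hY : Y ∈ SS F n) : ¬ p ∣ Y := by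
  have hpr : Prime p := hi.prime
  induction hY using Submonoid.closure_induction with
  | mem x hx => exact not_dvd_of_natDegree hd hx.1 hx.2
  | one => intro h; exact hpr.not_isUnit (isUnit_of_dvd_one h)
  | mul x y _ _ hx hy =>
    intro h
    rcases hpr.dvd_or_dvd h with h | h
    · exact hx h
    · exact hy h

lemma mod_ne {p : F[X]} (hp : p.Monic) {Y : F[X]} (h : ¬ p ∣ Y) : Y %ₘ p ≠ 0 := fun h0 =>
  h ((modByMonic_eq_zero_iff_dvd hp).1 h0)

variable (hβ : PolyHyp F A β)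

include hβ

lemma LL_mul {n : ℕ} {Y : F[X]} (hY : Y ∈ SS F n) {x : A} (hx : x ∈ LL β n) :
    β Y * x ∈ LL β n := by
  induction hx using AddSubgroup.closure_induction with
  | mem x hx =>
    obtain ⟨Z, hZ, rfl⟩ := hx
    rw [← hβ.mul Y Z (SS_ne hY) (SS_ne hZ)]
    exact LL_of β ((SS F n).mul_mem hY hZ)
  | zero => rw [mul_zero]; exact zero_mem _
  | add x y _ _ hx hy => rw [mul_add]; exact add_mem hx hy
  | neg x _ hx => rw [mul_neg]; exact neg_mem hx

/-- the key congruence -/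
lemma key_cong {n : ℕ} {p : F[X]} (hp : p.Monic) (hd : p.natDegree = n + 1)
    {g₁ g₂ : F[X]} (h1 : g₁ ≠ 0) (h2 : g₂ ≠ 0) (hn1 : g₁.natDegree ≤ n) (hn2 : g₂.natDegree ≤ n)
    (h3 : (g₁ * g₂) %ₘ p ≠ 0) :
    β (p * (g₁ * g₂)) - β (p * ((g₁ * g₂) %ₘ p)) ∈ LL β n := by
  have hp0 : p ≠ 0 := hp.ne_zero
  set g₃ := (g₁ * g₂) %ₘ p with hg3
  set h := (g₁ * g₂) /ₘ p with hh
  have hdiv : g₃ + p * h = g₁ * g₂ := modByMonic_add_div (g₁ * g₂) p
  have h12 : g₁ * g₂ ≠ 0 := mul_ne_zero h1 h2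
  have hn3 : g₃.natDegree ≤ n := by
    have : g₃.natDegree < p.natDegree := natDegree_modByMonic_lt (g₁ * g₂) hp (by
      intro h; rw [h, natDegree_one] at hd; omega)
    omega
  by_cases hh0 : h = 0
  · have : g₁ * g₂ = g₃ := by rw [← hdiv, hh0, mul_zero, add_zero]
    rw [← this, sub_self]
    exact zero_mem _
  · have hnh : h.natDegree ≤ n := by
      have : h.natDegree = (g₁ * g₂).natDegree - p.natDegree := natDegree_divByMonic _ hp
      rw [this, natDegree_mul h1 h2]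
      omega
    have hph : p * h ≠ 0 := mul_ne_zero hp0 hh0
    have e := hβ.add g₃ (p * h) (g₁ * g₂) h3 hph h12 hdiv
    rw [hβ.mul p h hp0 hh0] at e
    have e2 : β (p * (g₁ * g₂)) - β (p * g₃) = β h - β (g₁ * g₂ * (g₃ * h)) := by
      rw [hβ.mul p _ hp0 h12, hβ.mul p _ hp0 h3, hβ.mul _ _ h12 (mul_ne_zero h3 hh0),
        hβ.mul _ _ h3 hh0]
      have hpp := hβ.sq p hp0
      linear_combination (- β p) * e + (β h - β h * β (g₁ * g₂) * β g₃) * hpp
    rw [e2]
    refine sub_mem (LL_of β (SS_of hh0 hnh)) (LL_of β ?_)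
    exact (SS F n).mul_mem ((SS F n).mul_mem (SS_of h1 hn1) (SS_of h2 hn2))
      ((SS F n).mul_mem (SS_of h3 hn3) (SS_of hh0 hnh))

lemma smooth_cong {n : ℕ} {p : F[X]} (hp : p.Monic) (hi : Irreducible p)
    (hd : p.natDegree = n + 1) {Y : F[X]} (hY : Y ∈ SS F n) :
    β (p * Y) - β (p * (Y %ₘ p)) ∈ LL β n := by
  have hp0 : p ≠ 0 := hp.ne_zero
  have hpr : Prime p := hi.prime
  have hp1 : p ≠ 1 := by intro h; rw [h, natDegree_one] at hd; omega
  induction hY using Submonoid.closure_induction_left with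
  | one =>
    rw [(modByMonic_eq_self_iff hp).2, sub_self]
    · exact zero_mem _
    · rw [degree_one]
      exact natDegree_pos_iff_degree_pos.1 (by omega)
  | mul_left g hg Y hY ih =>
    have hY' : Y ∈ SS F n := hY
    have hYd := SS_not_dvd hi hd hY'
    have hY0 := SS_ne hY'
    have hr0 : Y %ₘ p ≠ 0 := mod_ne hp hYd
    have hrn : (Y %ₘ p).natDegree ≤ n := by
      have := natDegree_modByMonic_lt Y hp hp1
      omega
    have hgd : ¬ p ∣ g := not_dvd_of_natDegree hd hg.1 hg.2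
    have hrd : ¬ p ∣ Y %ₘ p := not_dvd_of_natDegree hd hr0 hrn
    have hgr : ¬ p ∣ g * (Y %ₘ p) := fun h => (hpr.dvd_or_dvd h).elim hgd hrd
    have e1 : (g * Y) %ₘ p = (g * (Y %ₘ p)) %ₘ p := by
      refine modByMonic_eq_of_dvd_sub hp ?_
      refine ⟨g * (Y /ₘ p), ?_⟩
      have := modByMonic_add_div Y p
      linear_combination (-g) * this
    have e2 : β (p * (g * Y)) - β (p * ((g * Y) %ₘ p)) =
        β g * (β (p * Y) - β (p * (Y %ₘ p))) +
        (β (p * (g * (Y %ₘ p))) - β (p * ((g * (Y %ₘ p)) %ₘ p))) := by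
      rw [e1, hβ.mul p _ hp0 (mul_ne_zero hg.1 hY0), hβ.mul g Y hg.1 hY0, hβ.mul p Y hp0 hY0,
        hβ.mul p (Y %ₘ p) hp0 hr0, hβ.mul p (g * (Y %ₘ p)) hp0 (mul_ne_zero hg.1 hr0),
        hβ.mul g (Y %ₘ p) hg.1 hr0]
      ring
    rw [e2]
    refine add_mem (LL_mul β hβ (SS_of hg.1 hg.2) ih) ?_
    exact key_cong β hβ hp hd hg.1 hr0 hg.2 hrn (mod_ne hp hgr)

/-- generators of the next step of the filtration -/
def NN1 (β : F[X] → A) (n : ℕ) : AddSubgroup A :=
  AddSubgroup.closure ({x | ∃ Y ∈ SS F n, β Y = x} ∪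
    {x | ∃ p Y : F[X], p.Monic ∧ Irreducible p ∧ p.natDegree = n + 1 ∧ Y ∈ SS F n ∧ β (p * Y) = x})

omit hβ in
lemma NN1_of {n : ℕ} {Y : F[X]} (hY : Y ∈ SS F n) : β Y ∈ NN1 β n :=
  AddSubgroup.subset_closure (Or.inl ⟨Y, hY, rfl⟩)

omit hβ in
lemma NN1_of' {n : ℕ} {p Y : F[X]} (hp : p.Monic) (hi : Irreducible p)
    (hd : p.natDegree = n + 1) (hY : Y ∈ SS F n) : β (p * Y) ∈ NN1 β n :=
  AddSubgroup.subset_closure (Or.inr ⟨p, Y, hp, hi, hd, hY, rfl⟩)

lemma NN1_mul_low {n : ℕ} {g : F[X]} (hg : g ∈ SS F n) {x : A} (hx : x ∈ NN1 β n) :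
    β g * x ∈ NN1 β n := by
  have hg0 := SS_ne hg
  induction hx using AddSubgroup.closure_induction with
  | mem x hx =>
    rcases hx with ⟨Y, hY, rfl⟩ | ⟨p, Y, hp, hi, hd, hY, rfl⟩
    · rw [← hβ.mul g Y hg0 (SS_ne hY)]
      exact NN1_of β ((SS F n).mul_mem hg hY)
    · have : β g * β (p * Y) = β (p * (g * Y)) := by
        rw [hβ.mul p Y hp.ne_zero (SS_ne hY), hβ.mul p _ hp.ne_zero (mul_ne_zero hg0 (SS_ne hY)),
          hβ.mul g Y hg0 (SS_ne hY)]
        ring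
      rw [this]
      exact NN1_of' β hp hi hd ((SS F n).mul_mem hg hY)
  | zero => rw [mul_zero]; exact zero_mem _
  | add x y _ _ hx hy => rw [mul_add]; exact add_mem hx hy
  | neg x _ hx => rw [mul_neg]; exact neg_mem hx

lemma NN1_mul_irr {n : ℕ} {q : F[X]} (hq : q.Monic) (hqi : Irreducible q)
    (hqd : q.natDegree = n + 1) {x : A} (hx : x ∈ NN1 β n) : β q * x ∈ NN1 β n := by
  have hq0 := hq.ne_zero
  induction hx using AddSubgroup.closure_induction with
  | mem x hx =>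
    rcases hx with ⟨Y, hY, rfl⟩ | ⟨p, Y, hp, hi, hd, hY, rfl⟩
    · rw [← hβ.mul q Y hq0 (SS_ne hY)]
      exact NN1_of' β hq hqi hqd hY
    · have hY0 := SS_ne hY
      have hp0 := hp.ne_zero
      by_cases hpq : p = q
      · subst hpq
        rw [hβ.mul p Y hp0 hY0, ← mul_assoc, hβ.sq p hp0, one_mul]
        exact NN1_of β hY
      · set h := q - p with hh
        have hh0 : h ≠ 0 := fun h0 => hpq (sub_eq_zero.1 h0).symm
        have hhn : h.natDegree ≤ n := by
          have h1 : h.degree < q.degree := degree_sub_lt_left (by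
            rw [degree_eq_natDegree hq0, degree_eq_natDegree hp0, hqd, hd]) hq0
            (by rw [hq.leadingCoeff, hp.leadingCoeff])
          have h2 := natDegree_lt_natDegree hh0 h1
          omega
        have hhS : h * Y ∈ SS F n := (SS F n).mul_mem (SS_of hh0 hhn) hY
        have e := hβ.add p h q hp0 hh0 hq0 (by rw [hh]; ring)
        have hs := hβ.sq h hh0
        have e2 : β q * β (p * Y) = β (p * (h * Y)) + β Y - β (q * (h * Y)) := by
          rw [hβ.mul p Y hp0 hY0, hβ.mul p _ hp0 (mul_ne_zero hh0 hY0),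
            hβ.mul q _ hq0 (mul_ne_zero hh0 hY0), hβ.mul h Y hh0 hY0]
          linear_combination (- β h * β Y) * e + (β Y - β p * β q * β Y) * hs
        rw [e2]
        exact sub_mem (add_mem (NN1_of' β hp hi hd hhS) (NN1_of β hY))
          (NN1_of' β hq hqi hqd hhS)
  | zero => rw [mul_zero]; exact zero_mem _
  | add x y _ _ hx hy => rw [mul_add]; exact add_mem hx hy
  | neg x _ hx => rw [mul_neg]; exact neg_mem hx

lemma NN1_mul_gen {n : ℕ} {g : F[X]} (hg0 : g ≠ 0) (hgn : g.natDegree ≤ n + 1) {x : A}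
    (hx : x ∈ NN1 β n) : β g * x ∈ NN1 β n := by
  by_cases hlt : g.natDegree ≤ n
  · exact NN1_mul_low β hβ (SS_of hg0 hlt) hx
  have hgd : g.natDegree = n + 1 := by omega
  set c := g.leadingCoeff with hc
  have hc0 : c ≠ 0 := leadingCoeff_ne_zero.2 hg0
  have hC0 : (C c : F[X]) ≠ 0 := C_ne_zero.2 hc0
  have hCS : (C c : F[X]) ∈ SS F n := SS_of hC0 (by simp)
  set g₁ := C c⁻¹ * g with hg1
  have hm : g₁.Monic := by
    rw [Monic, hg1, leadingCoeff_mul, leadingCoeff_C]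
    exact inv_mul_cancel₀ hc0
  have hgg : g = C c * g₁ := by
    rw [hg1, ← mul_assoc, ← C_mul, mul_inv_cancel₀ hc0, C_1, one_mul]
  have hd1 : g₁.natDegree = n + 1 := by
    rw [hg1, natDegree_C_mul (inv_ne_zero hc0), hgd]
  by_cases hi : Irreducible g₁
  · rw [hgg, hβ.mul _ _ hC0 hm.ne_zero, mul_assoc]
    exact NN1_mul_low β hβ hCS (NN1_mul_irr β hβ hm hi hd1 hx)
  · refine NN1_mul_low β hβ ?_ hx
    rw [hgg]
    refine (SS F n).mul_mem hCS ?_
    rw [hm.irreducible_iff_natDegree'] at hi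
    push Not at hi
    obtain ⟨f, h, hf, hh, hfh, hmem⟩ := hi (by
      intro h; rw [h, natDegree_one] at hd1; omega)
    rw [Finset.mem_Ioc] at hmem
    have hadd : f.natDegree + h.natDegree = n + 1 := by
      rw [← natDegree_mul hf.ne_zero hh.ne_zero, hfh, hd1]
    rw [← hfh]
    refine (SS F n).mul_mem (SS_of hf.ne_zero (by omega)) (SS_of hh.ne_zero ?_)
    have := hmem.2
    rw [hd1] at this
    omega

lemma LL_le_NN1 (n : ℕ) : LL β (n + 1) ≤ NN1 β n := by
  refine (AddSubgroup.closure_le _).2 ?_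
  rintro _ ⟨Y, hY, rfl⟩
  have key : ∀ Y ∈ SS F (n + 1), ∀ x ∈ NN1 β n, β Y * x ∈ NN1 β n := by
    intro Y hY
    induction hY using Submonoid.closure_induction_left with
    | one => intro x hx; rw [hβ.one, one_mul]; exact hx
    | mul_left g hg Y hY ih =>
      intro x hx
      have hY' : Y ∈ SS F (n + 1) := hY
      rw [hβ.mul g Y hg.1 (SS_ne hY'), mul_assoc]
      exact NN1_mul_gen β hβ hg.1 hg.2 (ih x hx)
  have h1 : (1 : A) ∈ NN1 β n := by
    rw [← hβ.one]; exact NN1_of β (SS F n).one_mem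
  have := key Y hY 1 h1
  rwa [mul_one] at this

/-- monic irreducible polynomials of a given degree -/
abbrev IR (F : Type) [Field F] (d : ℕ) : Type :=
  {p : F[X] // p.Monic ∧ Irreducible p ∧ p.natDegree = d}

omit hβ in
lemma decompose {n : ℕ} (Λ : IR F (n + 1) → A →+ A ⧸ LL β n)
    (ha : ∀ i, ∀ Y ∈ SS F n, Λ i (β Y) = 0)
    (hb : ∀ i j : IR F (n + 1), i ≠ j → ∀ Y ∈ SS F n, Λ i (β (j.1 * Y)) = 0)
    (hc : ∀ i : IR F (n + 1), ∀ Y ∈ SS F n,
      Λ i (β (i.1 * Y)) = QuotientAddGroup.mk (β (i.1 * Y)))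
    {x : A} (hx : x ∈ NN1 β n) :
    ∃ S : Finset (IR F (n + 1)), (QuotientAddGroup.mk x : A ⧸ LL β n) = ∑ i ∈ S, Λ i x ∧
      ∀ i ∉ S, Λ i x = 0 := by
  classical
  induction hx using AddSubgroup.closure_induction with
  | mem x hx =>
    rcases hx with ⟨Y, hY, rfl⟩ | ⟨p, Y, hp, hi, hd, hY, rfl⟩
    · refine ⟨∅, ?_, fun i _ => ha i Y hY⟩
      rw [Finset.sum_empty]
      exact (QuotientAddGroup.eq_zero_iff _).2 (LL_of β hY)
    · refine ⟨{⟨p, hp, hi, hd⟩}, ?_, ?_⟩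
      · rw [Finset.sum_singleton]
        exact (hc ⟨p, hp, hi, hd⟩ Y hY).symm
      · intro i hi'
        rw [Finset.mem_singleton] at hi'
        exact hb i ⟨p, hp, hi, hd⟩ hi' Y hY
  | zero =>
    refine ⟨∅, ?_, fun i _ => map_zero _⟩
    rw [Finset.sum_empty]
    rfl
  | add x y _ _ hx hy =>
    obtain ⟨S, h1, h2⟩ := hx
    obtain ⟨T, h3, h4⟩ := hy
    refine ⟨S ∪ T, ?_, ?_⟩
    · have e1 : ∑ i ∈ S ∪ T, Λ i x = ∑ i ∈ S, Λ i x :=
        (Finset.sum_subset Finset.subset_union_left (fun i _ hi => h2 i hi)).symm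
      have e2 : ∑ i ∈ S ∪ T, Λ i y = ∑ i ∈ T, Λ i y :=
        (Finset.sum_subset Finset.subset_union_right (fun i _ hi => h4 i hi)).symm
      simp only [map_add, Finset.sum_add_distrib, e1, e2, ← h1, ← h3]
      rfl
    · intro i hi
      rw [Finset.mem_union] at hi
      rw [map_add, h2 i (fun h => hi (Or.inl h)), h4 i (fun h => hi (Or.inr h)), add_zero]
  | neg x _ hx =>
    obtain ⟨S, h1, h2⟩ := hx
    refine ⟨S, ?_, fun i hi => by rw [map_neg, h2 i hi, neg_zero]⟩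
    simp only [map_neg, Finset.sum_neg_distrib, ← h1]
    rfl

lemma descend {n : ℕ} (Λ : IR F (n + 1) → A →+ A ⧸ LL β n)
    (ha : ∀ i, ∀ Y ∈ SS F n, Λ i (β Y) = 0)
    (hb : ∀ i j : IR F (n + 1), i ≠ j → ∀ Y ∈ SS F n, Λ i (β (j.1 * Y)) = 0)
    (hc : ∀ i : IR F (n + 1), ∀ Y ∈ SS F n,
      Λ i (β (i.1 * Y)) = QuotientAddGroup.mk (β (i.1 * Y)))
    {x : A} (hx : x ∈ LL β (n + 1)) (h0 : ∀ i, Λ i x = 0) : x ∈ LL β n := by
  obtain ⟨S, h1, -⟩ := decompose β Λ ha hb hc (LL_le_NN1 β hβ n hx)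
  rw [Finset.sum_eq_zero (fun i _ => h0 i)] at h1
  exact (QuotientAddGroup.eq_zero_iff _).1 h1

end Filt

/-! ### The map `λ_p` -/

section Lam

variable {F A : Type} [Field F] [CommRing A] (β : F[X] → A) (hβ : PolyHyp F A β)

include hβ

lemma exists_lam {n : ℕ} {p : F[X]} [Fact (Irreducible p)] (hp : p.Monic)
    (hd : p.natDegree = n + 1) :
    ∃ g : W (AdjoinRoot p) →+ A ⧸ LL β n, ∀ (a : (AdjoinRoot p)ˣ) (Y : F[X]),
      Y ∈ SS F n → AdjoinRoot.mk p Y = a → g (br a) = QuotientAddGroup.mk (β (p * Y)) := by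
  classical
  have hi : Irreducible p := Fact.out
  have hp0 : p ≠ 0 := hp.ne_zero
  have hp1 : p ≠ 1 := by intro h; rw [h, natDegree_one] at hd; omega
  set rep : AdjoinRoot p → F[X] := fun a => AdjoinRoot.modByMonicHom hp a with hrep
  have rep_mk : ∀ Y, rep (AdjoinRoot.mk p Y) = Y %ₘ p := fun Y => AdjoinRoot.modByMonicHom_mk hp Y
  have mk_rep : ∀ a, AdjoinRoot.mk p (rep a) = a := fun a => AdjoinRoot.mk_leftInverse hp a
  have rep_ne : ∀ a : (AdjoinRoot p)ˣ, rep a ≠ 0 := by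
    intro a h
    have := mk_rep a
    rw [h, map_zero] at this
    exact a.ne_zero this.symm
  have rep_deg : ∀ a : AdjoinRoot p, (rep a).natDegree ≤ n := by
    intro a
    obtain ⟨Y, rfl⟩ := AdjoinRoot.mk_surjective a
    rw [rep_mk]
    have := natDegree_modByMonic_lt Y hp hp1
    omega
  have rep_S : ∀ a : (AdjoinRoot p)ˣ, rep a ∈ SS F n := fun a => SS_of (rep_ne a) (rep_deg _)
  have cong : ∀ Y ∈ SS F n, (QuotientAddGroup.mk (β (p * Y)) : A ⧸ LL β n) =
      QuotientAddGroup.mk (β (p * rep (AdjoinRoot.mk p Y))) := by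
    intro Y hY
    rw [rep_mk]
    exact QuotientAddGroup.eq_iff_sub_mem.2 (smooth_cong β hβ hp hi hd hY)
  obtain ⟨g, hg⟩ := exists_addlift (K := AdjoinRoot p) (M := A ⧸ LL β n)
    (fun a => QuotientAddGroup.mk (β (p * rep a))) (by
      intro a c
      have hY : rep a * (rep c * rep c) ∈ SS F n :=
        (SS F n).mul_mem (rep_S a) ((SS F n).mul_mem (rep_S c) (rep_S c))
      have e := cong _ hY
      have e1 : AdjoinRoot.mk p (rep a * (rep c * rep c)) = ((a * c ^ 2 : (AdjoinRoot p)ˣ) : AdjoinRoot p) := by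
        rw [map_mul, map_mul, mk_rep, mk_rep]
        push_cast
        rw [pow_two]
      rw [e1] at e
      rw [← e]
      have e2 : β (p * (rep a * (rep c * rep c))) = β (p * rep a) := by
        rw [hβ.mul p _ hp0 (SS_ne hY), hβ.mul _ _ (rep_ne a) (mul_ne_zero (rep_ne c) (rep_ne c)),
          hβ.mul _ _ (rep_ne c) (rep_ne c), hβ.sq _ (rep_ne c), mul_one, hβ.mul p _ hp0 (rep_ne a)]
      rw [e2]) (by
      intro a
      have e1 : rep ((-a : (AdjoinRoot p)ˣ) : AdjoinRoot p) = - rep a := by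
        simp only [hrep, Units.val_neg, map_neg]
      have e2 : β (p * -rep a) = - β (p * rep a) := by
        rw [mul_neg, hβ.neg _ (mul_ne_zero hp0 (rep_ne a))]
      show (QuotientAddGroup.mk (β (p * rep ((-a : (AdjoinRoot p)ˣ) : AdjoinRoot p))) : A ⧸ LL β n) = _
      rw [e1, e2]
      rfl) (by
      intro a b c h
      have hY : rep a * (rep b * rep c) ∈ SS F n :=
        (SS F n).mul_mem (rep_S a) ((SS F n).mul_mem (rep_S b) (rep_S c))
      have e := cong _ hY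
      have e1 : AdjoinRoot.mk p (rep a * (rep b * rep c)) =
          ((a * b * c : (AdjoinRoot p)ˣ) : AdjoinRoot p) := by
        rw [map_mul, map_mul, mk_rep, mk_rep, mk_rep]
        push_cast
        rw [mul_assoc]
      rw [e1] at e
      have hs : rep a + rep b = rep c := by
        simp only [hrep]
        rw [← map_add, h]
      have e3 := hβ.add _ _ _ (rep_ne a) (rep_ne b) (rep_ne c) hs
      show (QuotientAddGroup.mk (β (p * rep a)) : A ⧸ LL β n) + QuotientAddGroup.mk (β (p * rep b)) =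
        QuotientAddGroup.mk (β (p * rep c)) +
          QuotientAddGroup.mk (β (p * rep ((a * b * c : (AdjoinRoot p)ˣ) : AdjoinRoot p)))
      rw [← e, ← QuotientAddGroup.mk_add, ← QuotientAddGroup.mk_add]
      congr 1
      rw [hβ.mul p _ hp0 (SS_ne hY), hβ.mul _ _ (rep_ne a) (mul_ne_zero (rep_ne b) (rep_ne c)),
          hβ.mul _ _ (rep_ne b) (rep_ne c), hβ.mul p _ hp0 (rep_ne a), hβ.mul p _ hp0 (rep_ne b),
          hβ.mul p _ hp0 (rep_ne c)]
      linear_combination (β p) * e3)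
  refine ⟨g, ?_⟩
  intro a Y hY hYa
  rw [hg, cong Y hY, hYa]

end Lam

/-! ### The Witt ring of the rational function field -/

section Rat

variable {F : Type} [Field F]

lemma am_ne {Y : F[X]} (h : Y ≠ 0) : algebraMap F[X] (RatFunc F) Y ≠ 0 :=
  RatFunc.algebraMap_ne_zero h

/-- the unit of a nonzero polynomial -/
noncomputable def pu (Y : F[X]) (h : Y ≠ 0) : (RatFunc F)ˣ :=
  Units.mk0 (algebraMap F[X] (RatFunc F) Y) (am_ne h)

open Classical in
/-- the class of a polynomial -/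
noncomputable def bW (Y : F[X]) : W (RatFunc F) := if h : Y ≠ 0 then br (pu Y h) else 0

lemma bW_of {Y : F[X]} (h : Y ≠ 0) : bW Y = br (pu Y h) := by
  rw [bW, dif_pos h]

lemma pu_mul {Y Z : F[X]} (hY : Y ≠ 0) (hZ : Z ≠ 0) :
    pu (Y * Z) (mul_ne_zero hY hZ) = pu Y hY * pu Z hZ := by
  ext
  simp [pu]

lemma bW_hyp : PolyHyp F (W (RatFunc F)) bW := by
  have hB := brHyp (RatFunc F)
  refine ⟨?_, ?_, ?_, ?_, ?_⟩
  · rw [bW_of one_ne_zero]
    have : pu (1 : F[X]) one_ne_zero = 1 := by ext; simp [pu]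
    rw [this]
    exact hB.one
  · intro Y Z hY hZ
    rw [bW_of hY, bW_of hZ, bW_of (mul_ne_zero hY hZ), pu_mul hY hZ]
    exact hB.mul _ _
  · intro Y hY
    rw [bW_of hY]
    exact bmul_self _ hB _
  · intro Y hY
    rw [bW_of hY, bW_of (neg_ne_zero.2 hY)]
    have : pu (-Y) (neg_ne_zero.2 hY) = - pu Y hY := by ext; simp [pu]
    rw [this]
    exact hB.neg _
  · intro Y Z T hY hZ hT h
    rw [bW_of hY, bW_of hZ, bW_of hT]
    have e := hB.add (pu Y hY) (pu Z hZ) (pu T hT) (by simp [pu, ← h])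
    have e1 := hB.mul (pu Y hY * pu Z hZ) (pu T hT)
    have e2 := hB.mul (pu Y hY) (pu Z hZ)
    exact e.trans (by rw [e1, e2])

lemma exists_LL (ξ : W (RatFunc F)) : ∃ n, ξ ∈ LL (bW (F := F)) n := by
  refine W_induction (P := fun ξ => ∃ n, ξ ∈ LL (bW (F := F)) n) ?_ ?_ ?_ ?_ ξ
  · intro a
    have hn : (a : RatFunc F).num ≠ 0 := RatFunc.num_ne_zero a.ne_zero
    have hd : (a : RatFunc F).denom ≠ 0 := RatFunc.denom_ne_zero _
    refine ⟨((a : RatFunc F).num * (a : RatFunc F).denom).natDegree, ?_⟩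
    have e : br a = bW ((a : RatFunc F).num * (a : RatFunc F).denom) := by
      rw [bW_of (mul_ne_zero hn hd), ← (brHyp (RatFunc F)).sq a (pu _ hd)]
      congr 1
      ext
      have := RatFunc.num_div_denom (a : RatFunc F)
      have hd' := am_ne hd
      simp only [pu, Units.val_mul, Units.val_pow_eq_pow_val, Units.val_mk0, map_mul]
      nth_rewrite 1 [← this]
      field_simp
    rw [e]
    exact LL_of _ (SS_of (mul_ne_zero hn hd) le_rfl)
  · exact ⟨0, zero_mem _⟩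
  · rintro x y ⟨n, hn⟩ ⟨m, hm⟩
    exact ⟨max n m, add_mem (LL_mono _ (le_max_left _ _) hn) (LL_mono _ (le_max_right _ _) hm)⟩
  · rintro x ⟨n, hn⟩
    exact ⟨n, neg_mem hn⟩

lemma LL_zero {ξ : W (RatFunc F)} (h : ξ ∈ LL (bW (F := F)) 0) :
    ∃ η : W F, ξ = Wmap (RatFunc.C) η := by
  induction h using AddSubgroup.closure_induction with
  | mem x hx =>
    obtain ⟨Y, hY, rfl⟩ := hx
    have hY' : Y ∈ SS F 0 := hY
    have hc : ∃ c : F, c ≠ 0 ∧ Y = C c := by
      clear hY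
      induction hY' using Submonoid.closure_induction with
      | mem x hx =>
        obtain ⟨h0, h1⟩ := hx
        have e := eq_C_of_natDegree_le_zero h1
        exact ⟨x.coeff 0, fun h => h0 (by rw [e, h, C_0]), e⟩
      | one => exact ⟨1, one_ne_zero, C_1.symm⟩
      | mul x y _ _ hx hy =>
        obtain ⟨c, hc, rfl⟩ := hx
        obtain ⟨d, hd, rfl⟩ := hy
        exact ⟨c * d, mul_ne_zero hc hd, C_mul.symm⟩
    obtain ⟨c, hc0, rfl⟩ := hc
    refine ⟨br (Units.mk0 c hc0), ?_⟩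
    rw [Wmap_br, bW_of (C_ne_zero.2 hc0)]
    congr 1
    ext
    simp [pu]
  | zero => exact ⟨0, (map_zero _).symm⟩
  | add x y _ _ hx hy =>
    obtain ⟨a, rfl⟩ := hx
    obtain ⟨b, rfl⟩ := hy
    exact ⟨a + b, (map_add _ _ _).symm⟩
  | neg x _ hx =>
    obtain ⟨a, rfl⟩ := hx
    exact ⟨-a, (map_neg _ _).symm⟩

end Rat

/-! ### The theorem -/

lemma ac_pi {K κ : Type} [Field K] [Field κ] (P : DV K κ) : P.ac P.π = 1 := by
  have h : P.unitPart P.π = 1 := by
    rw [DV.unitPart, P.ord_π]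
    simp
  ext
  rw [P.ac_apply]
  have : (⟨((P.unitPart P.π : Kˣ) : K), P.unitPart_mem P.π⟩ : P.O) = 1 := by
    ext
    simp [h]
  rw [this, map_one]
  rfl

lemma exists_Lam (hDVP : S_DVP) {F : Type} [Field F] [CharZero F] {n : ℕ}
    (i : IR F (n + 1)) (ξ : W (RatFunc F))
    (hξ : ∀ (p : F[X]) [Fact (Irreducible p)], p.Monic → ∀ P : DV (RatFunc F) (AdjoinRoot p),
      PolyDV p P → ∀ d : W (RatFunc F) →+ W (AdjoinRoot p), IsRes P d → d ξ = 0) :
    ∃ L : W (RatFunc F) →+ W (RatFunc F) ⧸ LL (bW (F := F)) n,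
      (∀ Y ∈ SS F n, L (bW Y) = 0) ∧
      (∀ j : IR F (n + 1), i ≠ j → ∀ Y ∈ SS F n, L (bW (j.1 * Y)) = 0) ∧
      (∀ Y ∈ SS F n, L (bW (i.1 * Y)) = QuotientAddGroup.mk (bW (i.1 * Y))) ∧ L ξ = 0 := by
  obtain ⟨p, hp, hi, hd⟩ := i
  haveI : Fact (Irreducible p) := ⟨hi⟩
  haveI : CharZero (AdjoinRoot p) :=
    charZero_of_injective_algebraMap (algebraMap F (AdjoinRoot p)).injective
  obtain ⟨P, hP⟩ := hDVP F p
  obtain ⟨-, d, -, -, hres, -⟩ := phi_thm (RatFunc F) (AdjoinRoot p) P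
  obtain ⟨g, hg⟩ := exists_lam (bW (F := F)) bW_hyp hp hd
  have hpr : Prime p := hi.prime
  have hord : ∀ (Y : F[X]) (hY : Y ≠ 0), ¬ p ∣ Y → P.ord (pu Y hY) = 1 ∧
      (P.ac (pu Y hY) : AdjoinRoot p) = AdjoinRoot.mk p Y := fun Y hY h => hP.1 Y (pu Y hY) h rfl
  have hd0 : ∀ (Y : F[X]), Y ≠ 0 → ¬ p ∣ Y → d (bW Y) = 0 := by
    intro Y hY h
    rw [bW_of hY]
    refine hres.1 _ ?_
    rw [(hord Y hY h).1]
    simp
  have hpi : P.π = pu p hp.ne_zero := by
    ext
    exact hP.2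
  refine ⟨g.comp d, ?_, ?_, ?_, ?_⟩
  · intro Y hY
    rw [AddMonoidHom.comp_apply, hd0 Y (SS_ne hY) (SS_not_dvd hi hd hY), map_zero]
  · rintro ⟨q, hq, hqi, hqd⟩ hne Y hY
    have hpq : ¬ p ∣ q := by
      intro h
      have := eq_of_monic_of_associated hp hq (hi.associated_of_dvd hqi h)
      exact hne (Subtype.ext this)
    have : ¬ p ∣ q * Y := fun h => (hpr.dvd_or_dvd h).elim hpq (SS_not_dvd hi hd hY)
    rw [AddMonoidHom.comp_apply, hd0 _ (mul_ne_zero hq.ne_zero (SS_ne hY)) this, map_zero]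
  · intro Y hY
    have hY0 := SS_ne hY
    obtain ⟨h1, h2⟩ := hord Y hY0 (SS_not_dvd hi hd hY)
    have e1 : pu (p * Y) (mul_ne_zero hp.ne_zero hY0) = P.π * pu Y hY0 := by
      rw [pu_mul hp.ne_zero hY0, hpi]
    have e2 : d (bW (p * Y)) = br (P.ac (pu Y hY0)) := by
      rw [bW_of (mul_ne_zero hp.ne_zero hY0), e1, hres.2, map_mul, ac_pi, one_mul]
      rw [map_mul, P.ord_π, h1]
      simp
    rw [AddMonoidHom.comp_apply, e2]
    exact hg _ Y hY h2.symm
  · rw [AddMonoidHom.comp_apply, hξ p hp P hP d hres, map_zero]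

theorem mil_thm (hDVP : S_DVP) : S_MIL := by
  intro F _ _ ξ hξ
  obtain ⟨n, hn⟩ := exists_LL ξ
  refine LL_zero ?_
  induction n with
  | zero => exact hn
  | succ n ih =>
    refine ih ?_
    choose L h1 h2 h3 h4 using fun i : IR F (n + 1) => exists_Lam hDVP i ξ hξ
    exact descend (bW (F := F)) bW_hyp L h1 h2 h3 hn h4

end Pool.Agent.Helper52.W4
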