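import Pool.Agent.Helper40.W4.Spec

/-!
# W4, part PHI: the two residue homomorphisms of a discrete place
-/

set_option autoImplicit false

namespace Pool.Agent.Helper52.W4

open Pool.Agent.Helper40.W4 Polynomial Module

section DVlemmas

variable {K κ : Type} [Field K] [Field κ] (P : DV K κ)

/-- the integer value -/
noncomputable def o (x : Kˣ) : ℤ := (P.ord x).toAdd

lemma o_mul (x y : Kˣ) : o P (x * y) = o P x + o P y := by simp [o]

lemma o_pi_zpow (n : ℤ) : o P (P.π ^ n) = n := by
  simp [o, map_zpow, P.ord_π]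

lemma ord_eq_of_o {x y : Kˣ} (h : o P x = o P y) : P.ord x = P.ord y :=
  Multiplicative.toAdd.injective h

lemma mem_iff (x : Kˣ) : (x : K) ∈ P.O ↔ 0 ≤ o P x := P.mem_O x

lemma ac_eq_of_o {x : Kˣ} {n : ℤ} (h : o P x = n) (hm : ((x * P.π ^ (-n) : Kˣ) : K) ∈ P.O) :
    (P.ac x : κ) = P.res ⟨((x * P.π ^ (-n) : Kˣ) : K), hm⟩ := by
  rw [P.ac_apply]
  congr 1
  ext
  simp only [DV.unitPart]
  have : (P.ord x).toAdd = n := h
  rw [this]

lemma cases_low {a b c : Kˣ} (h : (a : K) + b = c) (hab : o P a < o P b) :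
    o P c = o P a ∧ P.ac c = P.ac a := by
  set n := o P a with hn
  have hma : ((a * P.π ^ (-n) : Kˣ) : K) ∈ P.O := by
    rw [mem_iff, o_mul, o_pi_zpow]; omega
  have hmb : ((b * P.π ^ (-n) : Kˣ) : K) ∈ P.O := by
    rw [mem_iff, o_mul, o_pi_zpow]; omega
  have hs : ((a * P.π ^ (-n) : Kˣ) : K) + ((b * P.π ^ (-n) : Kˣ) : K) =
      ((c * P.π ^ (-n) : Kˣ) : K) := by
    push_cast
    rw [← add_mul, h]
  have hmc : ((c * P.π ^ (-n) : Kˣ) : K) ∈ P.O := by
    rw [← hs]; exact P.O.add_mem hma hmb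
  have hrb : P.res ⟨_, hmb⟩ = 0 := by
    rw [P.res_eq_zero]
    have : 0 < o P (b * P.π ^ (-n)) := by rw [o_mul, o_pi_zpow]; omega
    exact this
  have hra : P.res ⟨_, hma⟩ ≠ 0 := by
    rw [Ne, P.res_eq_zero]
    have : ¬ 0 < o P (a * P.π ^ (-n)) := by rw [o_mul, o_pi_zpow]; omega
    exact this
  have hrc : P.res ⟨_, hmc⟩ = P.res ⟨_, hma⟩ := by
    have : (⟨_, hmc⟩ : P.O) = ⟨_, hma⟩ + ⟨_, hmb⟩ := by ext; exact hs.symm
    rw [this, map_add, hrb, add_zero]
  have hoc : o P c = n := by
    have h1 : 0 ≤ o P (c * P.π ^ (-n)) := (mem_iff P _).1 hmc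
    have h2 : ¬ 0 < o P (c * P.π ^ (-n)) := by
      intro h2
      have := (P.res_eq_zero _ hmc).2 h2
      rw [hrc] at this
      exact hra this
    rw [o_mul, o_pi_zpow] at h1 h2
    omega
  refine ⟨hoc, ?_⟩
  ext
  rw [ac_eq_of_o P hoc hmc, ac_eq_of_o P hn.symm hma, hrc]

lemma cases_eq {a b c : Kˣ} (h : (a : K) + b = c) (hab : o P a = o P b) :
    (o P c = o P a ∧ (P.ac a : κ) + P.ac b = P.ac c) ∨ (P.ac b : κ) = - P.ac a := by
  set n := o P a with hn
  have hma : ((a * P.π ^ (-n) : Kˣ) : K) ∈ P.O := by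
    rw [mem_iff, o_mul, o_pi_zpow]; omega
  have hmb : ((b * P.π ^ (-n) : Kˣ) : K) ∈ P.O := by
    rw [mem_iff, o_mul, o_pi_zpow]; omega
  have hs : ((a * P.π ^ (-n) : Kˣ) : K) + ((b * P.π ^ (-n) : Kˣ) : K) =
      ((c * P.π ^ (-n) : Kˣ) : K) := by
    push_cast
    rw [← add_mul, h]
  have hmc : ((c * P.π ^ (-n) : Kˣ) : K) ∈ P.O := by
    rw [← hs]; exact P.O.add_mem hma hmb
  have hrc : P.res ⟨_, hmc⟩ = P.res ⟨_, hma⟩ + P.res ⟨_, hmb⟩ := by
    have : (⟨_, hmc⟩ : P.O) = ⟨_, hma⟩ + ⟨_, hmb⟩ := by ext; exact hs.symm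
    rw [this, map_add]
  have ha' := ac_eq_of_o P hn.symm hma
  have hb' := ac_eq_of_o P hab.symm hmb
  by_cases h0 : P.res ⟨_, hmc⟩ = 0
  · right
    rw [ha', hb', eq_neg_iff_add_eq_zero, add_comm, ← hrc, h0]
  · left
    have hoc : o P c = n := by
      have h1 : 0 ≤ o P (c * P.π ^ (-n)) := (mem_iff P _).1 hmc
      have h2 : ¬ 0 < o P (c * P.π ^ (-n)) := by
        intro h2
        exact h0 ((P.res_eq_zero _ hmc).2 h2)
      rw [o_mul, o_pi_zpow] at h1 h2
      omega
    refine ⟨hoc, ?_⟩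
    rw [ac_eq_of_o P hoc hmc, ha', hb', hrc]

end DVlemmas

/-- properties of the classes `⟨u⟩` -/
structure BrHyp (κ A : Type) [Field κ] [CommRing A] (b : κˣ → A) : Prop where
  one : b 1 = 1
  mul : ∀ u v, b (u * v) = b u * b v
  sq : ∀ u v, b (u * v ^ 2) = b u
  neg : ∀ u, b (-u) = - b u
  add : ∀ u v w : κˣ, (u : κ) + v = w → b u + b v = b w + b (u * v * w)

section Ring

variable {K κ A : Type} [Field K] [Field κ] [CommRing A] (P : DV K κ) (b : κˣ → A)

/-- the target ring -/
abbrev RR (A : Type) [CommRing A] := QuadraticAlgebra A 1 0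

open Classical in
/-- the map on units -/
noncomputable def ff (a : Kˣ) : RR A :=
  if Even (o P a) then ⟨b (P.ac a), 0⟩ else ⟨0, b (P.ac a)⟩

lemma ff_even {a : Kˣ} (h : Even (o P a)) : ff P b a = ⟨b (P.ac a), 0⟩ := by simp [ff, h]

lemma ff_odd {a : Kˣ} (h : ¬ Even (o P a)) : ff P b a = ⟨0, b (P.ac a)⟩ := by simp [ff, h]

variable (hb : BrHyp κ A b)

include hb

lemma ff_mul (x y : Kˣ) : ff P b (x * y) = ff P b x * ff P b y := by
  by_cases hx : Even (o P x) <;> by_cases hy : Even (o P y)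
  · rw [ff_even P b (by rw [o_mul]; exact hx.add hy), ff_even P b hx, ff_even P b hy]
    ext <;> simp [hb.mul]
  · have : ¬ Even (o P (x * y)) := by rw [o_mul, Int.even_add]; tauto
    rw [ff_odd P b this, ff_even P b hx, ff_odd P b hy]
    ext <;> simp [hb.mul]
  · have : ¬ Even (o P (x * y)) := by rw [o_mul, Int.even_add]; tauto
    rw [ff_odd P b this, ff_odd P b hx, ff_even P b hy]
    ext <;> simp [hb.mul]
  · have : Even (o P (x * y)) := by rw [o_mul, Int.even_add]; tauto
    rw [ff_even P b this, ff_odd P b hx, ff_odd P b hy]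
    ext <;> simp [hb.mul]

lemma ff_one : ff P b (1 : Kˣ) = 1 := by
  have h : o P (1 : Kˣ) = 0 := by simp [o]
  rw [ff_even P b (by rw [h]; exact Even.zero)]
  ext <;> simp [hb.one, QuadraticAlgebra.re_one, QuadraticAlgebra.im_one]

lemma bmul_self (u : κˣ) : b u * b u = 1 := by
  rw [← hb.mul, ← hb.one, ← hb.sq 1 u, one_mul, pow_two]

lemma ff_self (x : Kˣ) : ff P b x * ff P b x = 1 := by
  by_cases hx : Even (o P x)
  · rw [ff_even P b hx]; ext <;> simp [bmul_self b hb, QuadraticAlgebra.re_one, QuadraticAlgebra.im_one]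
  · rw [ff_odd P b hx]; ext <;> simp [bmul_self b hb, QuadraticAlgebra.re_one, QuadraticAlgebra.im_one]

lemma ff_neg_one : ff P b (-1) = -1 := by
  have h : o P (-1 : Kˣ) = 0 := by
    have := P.ord_neg_one
    simp [o, this]
  rw [ff_even P b (by rw [h]; exact Even.zero), P.ac_neg_one]
  ext <;> simp [hb.neg, hb.one, QuadraticAlgebra.re_one, QuadraticAlgebra.im_one]

omit hb in
lemma ff_congr {x y : Kˣ} (h : Even (o P x) ↔ Even (o P y)) (h2 : b (P.ac x) = b (P.ac y)) :
    ff P b x = ff P b y := by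
  by_cases hx : Even (o P x)
  · rw [ff_even P b hx, ff_even P b (h.1 hx), h2]
  · rw [ff_odd P b hx, ff_odd P b (fun hy => hx (h.2 hy)), h2]

lemma ff_rel {x y z : Kˣ} (h : (x : K) + y = z) :
    ff P b x + ff P b y = ff P b z + ff P b (x * y * z) := by
  rcases lt_trichotomy (o P x) (o P y) with hlt | heq | hgt
  · obtain ⟨h1, h2⟩ := cases_low P h hlt
    have e1 : ff P b z = ff P b x := ff_congr P b (by rw [h1]) (by rw [h2])
    have e2 : ff P b (x * y * z) = ff P b y := by
      refine ff_congr P b ?_ ?_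
      · rw [o_mul, o_mul, h1]
        rw [Int.even_add, Int.even_add]; tauto
      · rw [map_mul, map_mul, h2, mul_right_comm, mul_comm _ (P.ac y), ← pow_two, hb.sq]
    rw [e1, e2]
  · rcases cases_eq P h heq with ⟨h1, h2⟩ | h2
    · have hbb := hb.add _ _ _ h2
      by_cases ha : Even (o P x)
      · have hbe : Even (o P y) := heq ▸ ha
        have hce : Even (o P z) := h1 ▸ ha
        have habc : Even (o P (x * y * z)) := by
          rw [o_mul, o_mul]; exact (ha.add hbe).add hce
        rw [ff_even P b ha, ff_even P b hbe, ff_even P b hce, ff_even P b habc]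
        ext
        · simpa using hbb
        · simp
      · have hbe : ¬ Even (o P y) := heq ▸ ha
        have hce : ¬ Even (o P z) := h1 ▸ ha
        have habc : ¬ Even (o P (x * y * z)) := by
          rw [o_mul, o_mul, Int.even_add, Int.even_add]; tauto
        rw [ff_odd P b ha, ff_odd P b hbe, ff_odd P b hce, ff_odd P b habc]
        ext
        · simp
        · simpa using hbb
    · have h3 : P.ac y = - P.ac x := by ext; simpa using h2
      have hz1 : ff P b x + ff P b y = 0 := by
        by_cases ha : Even (o P x)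
        · have hbe : Even (o P y) := heq ▸ ha
          rw [ff_even P b ha, ff_even P b hbe, h3]
          ext <;> simp [hb.neg]
        · have hbe : ¬ Even (o P y) := heq ▸ ha
          rw [ff_odd P b ha, ff_odd P b hbe, h3]
          ext <;> simp [hb.neg]
      have hac : b (P.ac (x * y * z)) = - b (P.ac z) := by
        rw [map_mul, map_mul, h3]
        have : P.ac x * -P.ac x * P.ac z = (-P.ac z) * P.ac x ^ 2 := by
          rw [mul_neg, neg_mul, neg_mul, pow_two, mul_comm]
        rw [this, hb.sq, hb.neg]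
      have hz2 : ff P b z + ff P b (x * y * z) = 0 := by
        by_cases hc : Even (o P z)
        · have habc : Even (o P (x * y * z)) := by
            rw [o_mul, o_mul, heq]
            rw [Int.even_add, Int.even_add]; tauto
          rw [ff_even P b hc, ff_even P b habc, hac]
          ext <;> simp
        · have habc : ¬ Even (o P (x * y * z)) := by
            rw [o_mul, o_mul, heq]
            rw [Int.even_add, Int.even_add]; tauto
          rw [ff_odd P b hc, ff_odd P b habc, hac]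
          ext <;> simp
      rw [hz1, hz2]
  · obtain ⟨h1, h2⟩ := cases_low P (a := y) (b := x) (c := z) (by rw [add_comm]; exact h) hgt
    have e1 : ff P b z = ff P b y := ff_congr P b (by rw [h1]) (by rw [h2])
    have e2 : ff P b (x * y * z) = ff P b x := by
      refine ff_congr P b ?_ ?_
      · rw [o_mul, o_mul, h1]
        rw [Int.even_add, Int.even_add]; tauto
      · rw [map_mul, map_mul, h2, mul_assoc, ← pow_two, hb.sq]
    rw [e1, e2, add_comm]

omit hb in
lemma one_sub_mem (u : κˣ) : 1 - b u ∈ Ideal.span (Set.range fun u : κˣ => 1 - b u) :=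
  Ideal.subset_span ⟨u, rfl⟩

lemma one_add_mem (u : κˣ) : 1 + b u ∈ Ideal.span (Set.range fun u : κˣ => 1 - b u) := by
  have := one_sub_mem b (-u)
  rwa [hb.neg, sub_neg_eq_add] at this

omit hb in
lemma one_sub_ff (x : Kˣ) : ∃ u : κˣ, (1 - ff P b x = ⟨1 - b u, 0⟩) ∨
    (1 - ff P b x = ⟨1, - b u⟩) := by
  refine ⟨P.ac x, ?_⟩
  by_cases hx : Even (o P x)
  · left
    rw [ff_even P b hx]
    ext <;> simp [QuadraticAlgebra.re_one, QuadraticAlgebra.im_one]
  · right
    rw [ff_odd P b hx]
    ext <;> simp [QuadraticAlgebra.re_one, QuadraticAlgebra.im_one]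

omit hb in
/-- the filtration -/
def NN (I : Ideal A) (n : ℕ) (x : RR A) : Prop :=
  x.re ∈ I ^ n ∧ x.im ∈ I ^ n ∧ x.re + x.im ∈ I ^ (n + 1)

omit hb in
lemma NN_zero (I : Ideal A) (n : ℕ) : NN I n 0 := ⟨by simp, by simp, by simp⟩

omit hb in
lemma NN_add {I : Ideal A} {n : ℕ} {x y : RR A} (hx : NN I n x) (hy : NN I n y) :
    NN I n (x + y) := by
  refine ⟨?_, ?_, ?_⟩
  · rw [QuadraticAlgebra.re_add]; exact add_mem hx.1 hy.1
  · rw [QuadraticAlgebra.im_add]; exact add_mem hx.2.1 hy.2.1
  · rw [QuadraticAlgebra.re_add, QuadraticAlgebra.im_add]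
    have : x.re + y.re + (x.im + y.im) = (x.re + x.im) + (y.re + y.im) := by ring
    rw [this]
    exact add_mem hx.2.2 hy.2.2

lemma NN_step {n : ℕ} {x : RR A} (hx : NN (Ideal.span (Set.range fun u : κˣ => 1 - b u)) n x)
    (a : Kˣ) :
    NN (Ideal.span (Set.range fun u : κˣ => 1 - b u)) (n + 1) (x * (1 - ff P b a)) := by
  obtain ⟨u, hu | hu⟩ := one_sub_ff P b a
  · rw [hu]
    have h1 := one_sub_mem b u
    refine ⟨?_, ?_, ?_⟩
    · have : (x * (⟨1 - b u, 0⟩ : RR A)).re = x.re * (1 - b u) := by simp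
      rw [this, pow_succ]; exact Ideal.mul_mem_mul hx.1 h1
    · have : (x * (⟨1 - b u, 0⟩ : RR A)).im = x.im * (1 - b u) := by simp
      rw [this, pow_succ]; exact Ideal.mul_mem_mul hx.2.1 h1
    · have : (x * (⟨1 - b u, 0⟩ : RR A)).re + (x * (⟨1 - b u, 0⟩ : RR A)).im =
        (x.re + x.im) * (1 - b u) := by simp [add_mul]
      rw [this, pow_succ _ (n + 1)]; exact Ideal.mul_mem_mul hx.2.2 h1
  · rw [hu]
    have h1 := one_sub_mem b u
    have h2 := one_add_mem b hb u
    have er : (x * (⟨1, - b u⟩ : RR A)).re = (x.re + x.im) - x.im * (1 + b u) := by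
      simp; ring
    have ei : (x * (⟨1, - b u⟩ : RR A)).im = (x.re + x.im) - x.re * (1 + b u) := by
      simp; ring
    refine ⟨?_, ?_, ?_⟩
    · rw [er]
      refine sub_mem hx.2.2 ?_
      rw [pow_succ]; exact Ideal.mul_mem_mul hx.2.1 h2
    · rw [ei]
      refine sub_mem hx.2.2 ?_
      rw [pow_succ]; exact Ideal.mul_mem_mul hx.1 h2
    · rw [er, ei]
      have : (x.re + x.im) - x.im * (1 + b u) + ((x.re + x.im) - x.re * (1 + b u)) =
        (x.re + x.im) * (1 - b u) := by ring
      rw [this, pow_succ _ (n + 1)]; exact Ideal.mul_mem_mul hx.2.2 h1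

omit hb in
lemma NN_base (a : Kˣ) :
    (1 - ff P b a).re + (1 - ff P b a).im ∈ Ideal.span (Set.range fun u : κˣ => 1 - b u) := by
  obtain ⟨u, hu | hu⟩ := one_sub_ff P b a
  · rw [hu]
    have h1 := one_sub_mem b u
    simpa using h1
  · rw [hu]
    have h1 := one_sub_mem b u
    simpa [sub_eq_add_neg] using h1

lemma Phi_pow {B : Type} [CommRing B] (Φ : B →+* RR A) (c : Kˣ → B)
    (hc : ∀ a, Φ (c a) = ff P b a) (n : ℕ) :
    ∀ ξ ∈ (Ideal.span (Set.range fun a : Kˣ => 1 - c a)) ^ (n + 1),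
      NN (Ideal.span (Set.range fun u : κˣ => 1 - b u)) n (Φ ξ) := by
  induction n with
  | zero =>
    intro ξ hξ
    rw [zero_add, pow_one] at hξ
    induction hξ using Submodule.span_induction with
    | mem x hx =>
      obtain ⟨a, rfl⟩ := hx
      refine ⟨by simp, by simp, ?_⟩
      simp only [map_sub, map_one, hc, zero_add, pow_one]
      exact NN_base P b a
    | zero => rw [map_zero]; exact NN_zero _ 0
    | add x y _ _ hx hy => rw [map_add]; exact NN_add hx hy
    | smul r x _ hx =>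
      refine ⟨by simp, by simp, ?_⟩
      rw [smul_eq_mul, map_mul]
      have : (Φ r * Φ x).re + (Φ r * Φ x).im =
        ((Φ r).re + (Φ r).im) * ((Φ x).re + (Φ x).im) := by simp; ring
      rw [this]
      exact Ideal.mul_mem_left _ _ hx.2.2
  | succ n ih =>
    intro ξ hξ
    rw [pow_succ] at hξ
    refine Submodule.mul_induction_on hξ ?_ (fun x y hx hy => by rw [map_add]; exact NN_add hx hy)
    intro m hm t ht
    have key : ∀ m ∈ (Ideal.span (Set.range fun a : Kˣ => 1 - c a)) ^ (n + 1),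
        NN (Ideal.span (Set.range fun u : κˣ => 1 - b u)) (n + 1) (Φ (m * t)) := by
      clear hm m
      induction ht using Submodule.span_induction with
      | mem x hx =>
        obtain ⟨a, rfl⟩ := hx
        intro m hm
        simp only [map_mul, map_sub, map_one, hc]
        exact NN_step P b hb (ih m hm) a
      | zero => intro m hm; rw [mul_zero, map_zero]; exact NN_zero _ _
      | add x y _ _ hx hy =>
        intro m hm
        rw [mul_add, map_add]
        exact NN_add (hx m hm) (hy m hm)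
      | smul r x _ hx =>
        intro m hm
        have : m * r • x = (r * m) * x := by rw [smul_eq_mul]; ring
        rw [this]
        exact hx _ (Ideal.mul_mem_left _ _ hm)
    exact key m hm

end Ring

lemma brHyp (κ : Type) [Field κ] : BrHyp κ (W κ) br :=
  ⟨br_one, br_mul, br_mul_sq, br_neg, fun _ _ _ h => br_add h⟩

/-- the ring homomorphism -/
noncomputable def Phi {K κ : Type} [Field K] [Field κ] (P : DV K κ) : W K →+* RR (W κ) :=
  Wlift { toFun := ff P br, map_one' := ff_one P br (brHyp κ), map_mul' := ff_mul P br (brHyp κ) }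
    (fun a => ff_self P br (brHyp κ) a)
    (ff_neg_one P br (brHyp κ))
    (fun _ _ _ h => ff_rel P br (brHyp κ) h)

lemma Phi_br {K κ : Type} [Field K] [Field κ] (P : DV K κ) (a : Kˣ) :
    Phi P (br a) = ff P br a := Wlift_br _ _ _ _ a

/-- the coordinates, as additive maps -/
noncomputable def coord0 (A : Type) [CommRing A] : RR A →+ A where
  toFun x := x.re
  map_zero' := by simp
  map_add' x y := by simp

/-- the coordinates, as additive maps -/
noncomputable def coord1 (A : Type) [CommRing A] : RR A →+ A where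
  toFun x := x.im
  map_zero' := by simp
  map_add' x y := by simp

theorem phi_thm : S_PHI := by
  intro K κ _ _ _ _ P
  refine ⟨(coord0 (W κ)).comp (Phi P).toAddMonoidHom,
    (coord1 (W κ)).comp (Phi P).toAddMonoidHom, ?_, ?_, ⟨?_, ?_⟩, ?_⟩
  · intro a ha
    have ha' : ¬ Even (o P a) := Int.not_even_iff_odd.2 ha
    show (Phi P (br a)).re = 0
    rw [Phi_br, ff_odd P br ha']
  · intro a ha
    have ha' : Even (o P a) := ha
    show (Phi P (br a)).re = br (P.ac a)
    rw [Phi_br, ff_even P br ha']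
  · intro a ha
    have ha' : Even (o P a) := ha
    show (Phi P (br a)).im = 0
    rw [Phi_br, ff_even P br ha']
  · intro a ha
    have ha' : ¬ Even (o P a) := Int.not_even_iff_odd.2 ha
    show (Phi P (br a)).im = br (P.ac a)
    rw [Phi_br, ff_odd P br ha']
  · intro n ξ hξ
    exact Phi_pow P br (brHyp κ) (Phi P) br (Phi_br P) n ξ hξ

end Pool.Agent.Helper52.W4

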